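import Pool.Agent.TH696.HW.Main

universe u w

namespace Pool.Agent.Results.MP_164b00_al.HWProjective

open TH696.HW

/-- There is a torsion-free polycyclic-by-finite group `G` (the Hantzsche-Wendt group) such that
for every principal ideal domain `k` in which `2` is a unit (for example `ℚ`) there is a projective
left `kG`-module `P` that is not isomorphic to `F × I` for any free module `F` and any left
ideal `I` of `kG`. -/
theorem result : ∃ (G : Type) (_ : Group G),
    (∀ g : G, IsOfFinOrder g → g = 1) ∧ IsPolycyclicByFinite G ∧
    ∀ (k : Type u) [CommRing k] [IsDomain k] [IsPrincipalIdealRing k], IsUnit (2 : k) →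
      ∃ (P : Type u) (_ : AddCommGroup P) (_ : Module (MonoidAlgebra k G) P),
        Module.Projective (MonoidAlgebra k G) P ∧
        ∀ (F : Type w) [AddCommGroup F] [Module (MonoidAlgebra k G) F]
          [Module.Free (MonoidAlgebra k G) F]
          (I : Submodule (MonoidAlgebra k G) (MonoidAlgebra k G)),
          IsEmpty (P ≃ₗ[MonoidAlgebra k G] (F × I)) := by
  refine ⟨TH696.HW.G, inferInstance, torsionFree, polycyclicByFinite, ?_⟩
  intro k _ _ _ h2
  obtain ⟨h, hh⟩ := h2.exists_right_inv
  exact ⟨P (gen k), inferInstance, inferInstance, projective_P k h hh,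
    fun F _ _ _ I => no_iso k h hh F I⟩

end Pool.Agent.Results.MP_164b00_al.HWProjective
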